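import Pool.Agent.KS6_44.MLC.C

/-! The upper bound which follows from Milin's inequality, by Abel summation and Cauchy–Schwarz. -/

set_option autoImplicit false
open Finset

namespace Pool.Agent.KS6_44.MLC

lemma icc (g : ℕ → ℝ) (n : ℕ) : ∑ k ∈ Icc 1 n, g k = ∑ k ∈ range n, g (k + 1) := by
  induction n with
  | zero => simp
  | succ n ih => rw [sum_Icc_succ_top (by omega), ih, sum_range_succ]

lemma abel (d : ℕ → ℝ) {δ r : ℝ} (h : ∀ n, ∑ k ∈ range n, d k ≤ δ) (r0 : 0 ≤ r) (r1 : r ≤ 1) (n : ℕ) :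
    ∑ k ∈ range n, d k * r ^ (k + 1) + (δ - ∑ k ∈ range n, d k) * r ^ n ≤ δ := by
  induction n with
  | zero => simp
  | succ n ih =>
    refine le_trans ?_ ih
    rw [sum_range_succ, sum_range_succ]
    have h1 := mul_nonneg (mul_nonneg (sub_nonneg.2 (h n)) (pow_nonneg r0 n)) (sub_nonneg.2 r1)
    rw [pow_succ]
    nlinarith

lemma upper (γ : ℕ → ℂ) {δ r : ℝ} (hM : ∀ n : ℕ,
    ∑ k ∈ Icc 1 n, (k : ℝ) * ‖γ k‖ ^ 2 ≤ ∑ k ∈ Icc 1 n, 1 / (k : ℝ) + δ) (r0 : 0 ≤ r) (r1 : r < 1) :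
    (Summable fun k : ℕ => ((k : ℝ) + 1) * ‖γ (k + 1)‖ * r ^ (k + 1)) ∧
      (1 - r) * ∑' k : ℕ, ((k : ℝ) + 1) * ‖γ (k + 1)‖ * r ^ (k + 1) ≤
        √(Real.log (1 / (1 - r)) + δ) := by
  have p : 0 < 1 - r := by linarith
  set L := Real.log (1 / (1 - r)) + δ with hL
  have h1 : ∀ n : ℕ, ∑ k ∈ range n, (((k : ℝ) + 1) * ‖γ (k + 1)‖ ^ 2 - 1 / ((k : ℝ) + 1)) ≤ δ := fun n => by
    have := hM n
    rw [icc, icc] at this
    push_cast at this
    rw [sum_sub_distrib]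
    linarith
  have h2 : ∀ n : ℕ, ∑ k ∈ range n, ((k : ℝ) + 1) * ‖γ (k + 1)‖ ^ 2 * r ^ (k + 1) ≤ L := fun n => by
    have a1 := abel _ h1 r0 r1.le n
    have a2 := mul_nonneg (sub_nonneg.2 (h1 n)) (pow_nonneg r0 n)
    have a3 := sum_le_hasSum (range n) (fun k _ => by positivity)
      (Real.hasSum_pow_div_log_of_abs_lt_one (x := r) (by rw [abs_of_nonneg r0]; exact r1))
    have a4 : ∑ k ∈ range n, (((k : ℝ) + 1) * ‖γ (k + 1)‖ ^ 2 - 1 / ((k : ℝ) + 1)) * r ^ (k + 1) =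
        ∑ k ∈ range n, ((k : ℝ) + 1) * ‖γ (k + 1)‖ ^ 2 * r ^ (k + 1) -
          ∑ k ∈ range n, r ^ (k + 1) / ((k : ℝ) + 1) := by
      rw [← sum_sub_distrib]
      exact sum_congr rfl fun k _ => by ring
    have a5 : Real.log (1 / (1 - r)) = -Real.log (1 - r) := by rw [one_div, Real.log_inv]
    linarith
  have h3 : ∀ n : ℕ, ∑ k ∈ range n, ((k : ℝ) + 1) * r ^ (k + 1) ≤ 1 / (1 - r) ^ 2 := fun n => by
    have hs := hasSum_coe_mul_geometric_of_norm_lt_one (r := r) (by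
      rw [Real.norm_of_nonneg r0]; exact r1)
    have a1 := sum_le_hasSum (range (n + 1)) (fun k _ => by positivity) hs
    rw [sum_range_succ'] at a1
    push_cast at a1
    simp only [zero_mul, add_zero] at a1
    exact a1.trans (div_le_div_of_nonneg_right r1.le (by positivity))
  have L0 : 0 ≤ L := by simpa using h2 0
  have h4 : ∀ n : ℕ, ∑ k ∈ range n, ((k : ℝ) + 1) * ‖γ (k + 1)‖ * r ^ (k + 1) ≤ √L / (1 - r) := fun n => by
    have a1 := sum_sq_le_sum_mul_sum_of_sq_le_mul (range n)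
      (r := fun k : ℕ => ((k : ℝ) + 1) * ‖γ (k + 1)‖ * r ^ (k + 1))
      (f := fun k : ℕ => ((k : ℝ) + 1) * ‖γ (k + 1)‖ ^ 2 * r ^ (k + 1))
      (g := fun k : ℕ => ((k : ℝ) + 1) * r ^ (k + 1))
      (fun k _ => by positivity) (fun k _ => by positivity) (fun k _ => (by ring : _ = _).le)
    refine abs_le_of_sq_le_sq' ?_ (by positivity) |>.2
    rw [div_pow, Real.sq_sqrt L0]
    refine a1.trans ((mul_le_mul (h2 n) (h3 n) (sum_nonneg fun k _ => by positivity) L0).trans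
      (by rw [mul_one_div]))
  have s := summable_of_sum_range_le (fun k => by positivity) h4
  refine ⟨s, ?_⟩
  have := Real.tsum_le_of_sum_range_le (fun k => by positivity) h4
  rw [le_div_iff₀ p] at this
  linarith

end Pool.Agent.KS6_44.MLC
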